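import Mathlib

set_option autoImplicit false

namespace Pool.Agent.Results.MP_ea4033_co.TrivialImpliesDismantles

open Set Matroid

/-- A simple binary matroid given by a representation over `ZMod 2`: a matrix with finitely many
rows (indexed by `R`) and finitely many pairwise distinct columns `col e` (indexed by the ground
set `E`).  A zero column (a loop) is allowed. -/
structure BinMat where
  /-- the ground set -/
  E : Type
  [finE : Finite E]
  /-- the index set of the rows -/
  R : Type
  [finR : Finite R]
  /-- the columns -/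
  col : E → (R → ZMod 2)
  col_inj : Function.Injective col

attribute [instance] BinMat.finE BinMat.finR

section LinearAlgebra

variable {E W : Type} [Finite E] [AddCommGroup W] [Module (ZMod 2) W]

/-- The augmentation axiom for linearly independent sets of columns. -/
lemma aug (v : E → W) (I J : Set E) (hI : LinearIndepOn (ZMod 2) v I)
    (hJ : LinearIndepOn (ZMod 2) v J) (hlt : I.ncard < J.ncard) :
    ∃ e ∈ J, e ∉ I ∧ LinearIndepOn (ZMod 2) v (insert e I) := by
  classical
  by_contra hcon
  push Not at hcon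
  have hsub : v '' J ⊆ Submodule.span (ZMod 2) (v '' I) := by
    rintro _ ⟨e, heJ, rfl⟩
    by_cases heI : e ∈ I
    · exact Submodule.subset_span (mem_image_of_mem v heI)
    · by_contra hne
      exact hcon e heJ heI (hI.insert hne)
  have hle : Submodule.span (ZMod 2) (v '' J) ≤ Submodule.span (ZMod 2) (v '' I) :=
    Submodule.span_le.2 hsub
  have hfin : FiniteDimensional (ZMod 2) (Submodule.span (ZMod 2) (v '' I)) :=
    FiniteDimensional.span_of_finite _ ((Set.toFinite I).image v)
  have h1 := Submodule.finrank_mono hle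
  have h2 : Module.finrank (ZMod 2) (Submodule.span (ZMod 2) (v '' J)) = J.ncard := by
    have := Fintype.ofFinite (v '' J)
    have h3 := finrank_span_set_eq_card (R := ZMod 2) (s := v '' J) (by
      have := hJ.id_image
      exact this)
    rw [h3, ← Set.ncard_eq_toFinset_card', hJ.injOn.ncard_image]
  have h4 : Module.finrank (ZMod 2) (Submodule.span (ZMod 2) (v '' I)) = I.ncard := by
    have := Fintype.ofFinite (v '' I)
    have h3 := finrank_span_set_eq_card (R := ZMod 2) (s := v '' I) (by
      have := hI.id_image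
      exact this)
    rw [h3, ← Set.ncard_eq_toFinset_card', hI.injOn.ncard_image]
  omega

end LinearAlgebra

/-- The matroid represented by the columns: its independent sets are the sets of indices of
linearly independent families of columns. -/
noncomputable def BinMat.toMatroid (N : BinMat) : Matroid N.E :=
  (IndepMatroid.ofFinite (E := Set.univ) Set.finite_univ
    (fun I => LinearIndepOn (ZMod 2) N.col I)
    (linearIndepOn_empty _ _)
    (fun _ _ hJ h => hJ.mono h)
    (fun I J hI hJ h => aug N.col I J hI hJ h)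
    (fun _ _ => Set.subset_univ _)).matroid

lemma BinMat.indep_iff (N : BinMat) (I : Set N.E) :
    N.toMatroid.Indep I ↔ LinearIndepOn (ZMod 2) N.col I := Iff.rfl

lemma BinMat.ground (N : BinMat) : N.toMatroid.E = Set.univ := rfl

/-- Homomorphisms of binary matroids: for every circuit `Z` of `M` the columns of the images of
the elements of `Z` sum to zero. -/
def IsHom (M N : BinMat) (τ : M.E → N.E) : Prop :=
  ∀ Z : Finset M.E, M.toMatroid.IsCircuit (Z : Set M.E) → ∑ e ∈ Z, N.col (τ e) = 0

/-- Adjacency in the colouring graph: `τ ≠ τ'`, and `τ'` is obtained from `τ` by adding a fixed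
vector `c` to the columns of the images of the elements of one cocircuit `C` of `M`. -/
def AdjCol (M N : BinMat) (τ τ' : M.E → N.E) : Prop :=
  τ ≠ τ' ∧ ∃ (C : Set M.E) (c : N.R → ZMod 2), M.toMatroid.IsCocircuit C ∧
    (∀ e ∈ C, N.col (τ' e) = N.col (τ e) + c) ∧ ∀ e ∉ C, τ' e = τ e

lemma add_self_vec {R : Type} (c : R → ZMod 2) : c + c = 0 := by
  ext i
  exact CharTwo.add_self_eq_zero (c i)

lemma AdjCol.symm {M N : BinMat} {τ τ' : M.E → N.E} (h : AdjCol M N τ τ') :
    AdjCol M N τ' τ := by
  obtain ⟨hne, C, c, hC, h1, h2⟩ := h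
  refine ⟨hne.symm, C, c, hC, ?_, fun e he => (h2 e he).symm⟩
  intro e he
  rw [h1 e he, add_assoc, add_self_vec, add_zero]

/-- The colouring graph `Col(M,N)`. -/
def Col (M N : BinMat) : SimpleGraph {τ : M.E → N.E // IsHom M N τ} where
  Adj τ τ' := AdjCol M N τ.1 τ'.1
  symm := ⟨fun _ _ h => AdjCol.symm h⟩
  loopless := ⟨fun _ h => h.1 rfl⟩

/-- The restriction of `N` to a subset of its ground set. -/
@[reducible] def BinMat.restrict (N : BinMat) (X : Set N.E) : BinMat where
  E := X
  R := N.R
  col := fun e => N.col e.1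
  col_inj := fun _ _ h => Subtype.ext (N.col_inj h)

/-- `r` is a dismantling retraction of `N`. -/
def IsDismantlingRetraction (N : BinMat) (r : N.E → N.E) : Prop :=
  IsHom N N r ∧ (∀ e, r (r e) = r e) ∧ AdjCol N N r id

/-- `N` and `P` are isomorphic as matroids. -/
def IsCopy (N P : BinMat) : Prop :=
  ∃ f : N.E ≃ P.E, ∀ I : Set N.E, N.toMatroid.Indep I ↔ P.toMatroid.Indep (f '' I)

/-- `DismantlesTo P N`: the matroid `N` dismantles to `P`, i.e. a composition of dismantling
retractions, each applied to the image of the previous one, maps `N` onto a copy of `P`. -/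
inductive DismantlesTo (P : BinMat) : BinMat → Prop
  | copy (N : BinMat) (h : IsCopy N P) : DismantlesTo P N
  | step (N : BinMat) (r : N.E → N.E) (hr : IsDismantlingRetraction N r)
      (h : DismantlesTo P (N.restrict (Set.range r))) : DismantlesTo P N

/-- The loop: one element, with a zero column. -/
@[reducible] def loop : BinMat where
  E := Unit
  R := Unit
  col := fun _ _ => 0
  col_inj := fun _ _ _ => rfl

/-- The edge: one element, with a nonzero column. -/
@[reducible] def edge : BinMat where
  E := Unit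
  R := Unit
  col := fun _ _ => 1
  col_inj := fun _ _ _ => rfl

/-! ### Linear algebra of circuits and cocircuits -/

lemma zmod2_cases (x : ZMod 2) : x = 0 ∨ x = 1 := by
  fin_cases x
  · left; rfl
  · right; rfl

/-- The columns of a circuit sum to zero. -/
lemma circuit_sum (N : BinMat) (Z : Finset N.E) (hZ : N.toMatroid.IsCircuit (Z : Set N.E)) :
    ∑ e ∈ Z, N.col e = 0 := by
  classical
  have hdep : ¬ LinearIndepOn (ZMod 2) N.col (Z : Set N.E) := fun h =>
    hZ.not_indep ((N.indep_iff _).2 h)
  rw [linearIndepOn_finset_iff] at hdep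
  push Not at hdep
  obtain ⟨g, hg, i, hi, hgi⟩ := hdep
  let T : Finset N.E := Z.filter (fun e => g e ≠ 0)
  have hTZ : T ⊆ Z := Finset.filter_subset _ _
  have hT0 : ∑ e ∈ T, N.col e = 0 := by
    rw [← hg, Finset.sum_filter]
    apply Finset.sum_congr rfl
    intro e _
    rcases zmod2_cases (g e) with h | h
    · simp [h]
    · simp [h]
  have hTdep : ¬ N.toMatroid.Indep (T : Set N.E) := by
    rw [N.indep_iff, linearIndepOn_finset_iff]
    push Not
    refine ⟨fun _ => 1, by simpa using hT0, i, ?_, one_ne_zero⟩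
    simp [T, hi, hgi]
  have hTeq : (T : Set N.E) = (Z : Set N.E) := by
    by_contra hne
    have hss : (T : Set N.E) ⊂ (Z : Set N.E) :=
      lt_of_le_of_ne (by exact_mod_cast hTZ) hne
    exact hTdep (hZ.ssubset_indep hss)
  have : T = Z := by exact_mod_cast hTeq
  rw [← this]
  exact hT0

/-- A zero-sum set of columns is mapped to a zero-sum family by a homomorphism. -/
lemma hom_cycle {M N : BinMat} {τ : M.E → N.E} (hτ : IsHom M N τ) :
    ∀ (n : ℕ) (D : Finset M.E), D.card = n → ∑ e ∈ D, M.col e = 0 →
      ∑ e ∈ D, N.col (τ e) = 0 := by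
  classical
  intro n
  induction n using Nat.strong_induction_on with
  | _ n ih =>
  intro D hn hD
  rcases D.eq_empty_or_nonempty with rfl | hne
  · simp
  have hdep : M.toMatroid.Dep (D : Set M.E) := by
    refine ⟨?_, by rw [M.ground]; exact Set.subset_univ _⟩
    rw [M.indep_iff, linearIndepOn_finset_iff]
    push Not
    obtain ⟨i, hi⟩ := hne
    exact ⟨fun _ => 1, by simpa using hD, i, hi, one_ne_zero⟩
  obtain ⟨Z, hZD, hZ⟩ := hdep.exists_isCircuit_subset
  obtain ⟨Z, rfl⟩ : ∃ Z' : Finset M.E, (Z' : Set M.E) = Z :=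
    ⟨(Set.toFinite Z).toFinset, by simp⟩
  have hZD' : Z ⊆ D := by exact_mod_cast hZD
  have hZne : Z.Nonempty := by exact_mod_cast hZ.nonempty
  have h1 : ∑ e ∈ D \ Z, M.col e = 0 := by
    have := Finset.sum_sdiff (f := M.col) hZD'
    rw [circuit_sum M Z hZ, add_zero] at this
    rw [this, hD]
  have hcard : (D \ Z).card < n := by
    rw [← hn]
    apply Finset.card_lt_card
    refine ⟨Finset.sdiff_subset, fun h => ?_⟩
    obtain ⟨z, hz⟩ := hZne
    exact (Finset.mem_sdiff.1 (h (hZD' hz))).2 hz
  have h2 := ih _ hcard (D \ Z) rfl h1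
  rw [← Finset.sum_sdiff hZD', h2, hτ Z hZ, add_zero]

/-- Homomorphisms are exactly the maps induced by linear maps. -/
lemma isHom_iff {M N : BinMat} {τ : M.E → N.E} :
    IsHom M N τ ↔ ∃ L : (M.R → ZMod 2) →ₗ[ZMod 2] (N.R → ZMod 2),
      ∀ e, L (M.col e) = N.col (τ e) := by
  classical
  constructor
  · intro hτ
    have := Fintype.ofFinite M.E
    let A : (M.E → ZMod 2) →ₗ[ZMod 2] (M.R → ZMod 2) := Fintype.linearCombination (ZMod 2) M.col
    let B : (M.E → ZMod 2) →ₗ[ZMod 2] (N.R → ZMod 2) :=
      Fintype.linearCombination (ZMod 2) (fun e => N.col (τ e))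
    have hker : LinearMap.ker A ≤ LinearMap.ker B := by
      intro g hg
      rw [LinearMap.mem_ker] at hg ⊢
      simp only [A, B, Fintype.linearCombination_apply] at hg ⊢
      have key : ∀ w : M.E → (M.R → ZMod 2), ∑ e, g e • w e =
          ∑ e ∈ Finset.univ.filter (fun e => g e ≠ 0), w e := by
        intro w
        rw [Finset.sum_filter]
        apply Finset.sum_congr rfl
        intro e _
        rcases zmod2_cases (g e) with h | h <;> simp [h]
      have key' : ∀ w : M.E → (N.R → ZMod 2), ∑ e, g e • w e =
          ∑ e ∈ Finset.univ.filter (fun e => g e ≠ 0), w e := by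
        intro w
        rw [Finset.sum_filter]
        apply Finset.sum_congr rfl
        intro e _
        rcases zmod2_cases (g e) with h | h <;> simp [h]
      rw [key] at hg
      rw [key']
      exact hom_cycle hτ _ _ rfl hg
    obtain ⟨L, hL⟩ := LinearMap.exists_extend
      (((LinearMap.ker A).liftQ B hker) ∘ₗ (LinearMap.quotKerEquivRange A).symm.toLinearMap)
    refine ⟨L, fun e => ?_⟩
    have h1 : M.col e = A (Pi.single e 1) := by
      simp [A]
    have h2 : N.col (τ e) = B (Pi.single e 1) := by
      simp [B]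
    rw [h1, h2]
    have h3 := LinearMap.congr_fun hL ⟨A (Pi.single e 1), LinearMap.mem_range_self A _⟩
    simp only [LinearMap.coe_comp, Function.comp_apply, Submodule.coe_subtype,
      LinearEquiv.coe_coe] at h3
    rw [h3, LinearMap.quotKerEquivRange_symm_apply_image]
    simp
  · rintro ⟨L, hL⟩ Z hZ
    have := circuit_sum M Z hZ
    calc ∑ e ∈ Z, N.col (τ e) = ∑ e ∈ Z, L (M.col e) := by simp only [hL]
      _ = L (∑ e ∈ Z, M.col e) := by rw [map_sum]
      _ = 0 := by rw [this, map_zero]

lemma IsHom.comp {M N P : BinMat} {τ : M.E → N.E} {ρ : N.E → P.E} (hρ : IsHom N P ρ)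
    (hτ : IsHom M N τ) : IsHom M P (ρ ∘ τ) := by
  rw [isHom_iff] at *
  obtain ⟨L, hL⟩ := hρ
  obtain ⟨L', hL'⟩ := hτ
  exact ⟨L ∘ₗ L', fun e => by simp [hL, hL']⟩

lemma IsHom.id (N : BinMat) : IsHom N N id := by
  rw [isHom_iff]
  exact ⟨LinearMap.id, fun e => rfl⟩

/-- `Supp N X`: the set `X` contains a nonempty support of a linear functional. -/
def Supp (N : BinMat) (X : Set N.E) : Prop :=
  ∃ ψ : (N.R → ZMod 2) →ₗ[ZMod 2] ZMod 2, (∃ e, ψ (N.col e) ≠ 0) ∧ ∀ e, ψ (N.col e) ≠ 0 → e ∈ X

lemma base_span (N : BinMat) {B : Set N.E} (hB : N.toMatroid.IsBase B) (e : N.E) :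
    N.col e ∈ Submodule.span (ZMod 2) (N.col '' B) := by
  by_contra hne
  have h1 : LinearIndepOn (ZMod 2) N.col (insert e B) :=
    LinearIndepOn.insert ((N.indep_iff _).1 hB.indep) hne
  have h2 : e ∉ B := fun he => hne (Submodule.subset_span (mem_image_of_mem _ he))
  have h3 := hB.eq_of_subset_indep ((N.indep_iff _).2 h1) (Set.subset_insert e B)
  exact h2 (h3 ▸ Set.mem_insert e B)

lemma supp_iff (N : BinMat) (X : Set N.E) :
    (∀ B, N.toMatroid.IsBase B → (X ∩ B).Nonempty) ↔ Supp N X := by
  classical
  constructor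
  · intro h
    by_contra hcon
    -- every column lies in the span of the columns outside `X`
    have hspan : ∀ e, N.col e ∈ Submodule.span (ZMod 2) (N.col '' Xᶜ) := by
      intro e
      by_contra he
      obtain ⟨f, hf1, hf2⟩ := Submodule.exists_le_ker_of_notMem he
      refine hcon ⟨f, ⟨e, hf1⟩, ?_⟩
      intro e' he'
      by_contra hX
      exact he' (hf2 (Submodule.subset_span (mem_image_of_mem _ hX)))
    obtain ⟨I, hI⟩ := N.toMatroid.exists_isBasis Xᶜ (by rw [N.ground]; exact Set.subset_univ _)
    have hIsub : I ⊆ Xᶜ := hI.subset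
    have hspanI : N.col '' Xᶜ ⊆ Submodule.span (ZMod 2) (N.col '' I) := by
      rintro _ ⟨e, he, rfl⟩
      by_contra hne
      have h1 : LinearIndepOn (ZMod 2) N.col (insert e I) :=
        LinearIndepOn.insert ((N.indep_iff _).1 hI.indep) hne
      have h2 : e ∉ I := fun he => hne (Submodule.subset_span (mem_image_of_mem _ he))
      have h3 := hI.eq_of_subset_indep ((N.indep_iff _).2 h1) (Set.subset_insert e I)
        (Set.insert_subset he hIsub)
      exact h2 (h3 ▸ Set.mem_insert e I)
    have hIbase : N.toMatroid.IsBase I := by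
      rw [Matroid.isBase_iff_maximal_indep, maximal_iff_forall_insert]
      · refine ⟨hI.indep, ?_⟩
        intro e he hins
        have h1 := ((linearIndepOn_insert he).1 ((N.indep_iff _).1 hins)).2
        exact h1 (Submodule.span_le.2 hspanI (hspan e))
      · intro s t ht hst
        exact ht.subset hst
    obtain ⟨x, hx1, hx2⟩ := h I hIbase
    exact hIsub hx2 hx1
  · rintro ⟨ψ, ⟨e, he⟩, hψ⟩ B hB
    by_contra hcon
    rw [Set.not_nonempty_iff_eq_empty] at hcon
    have h1 : Submodule.span (ZMod 2) (N.col '' B) ≤ LinearMap.ker ψ := by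
      rw [Submodule.span_le]
      rintro _ ⟨b, hb, rfl⟩
      by_contra hne
      have : b ∈ X ∩ B := ⟨hψ b hne, hb⟩
      rw [hcon] at this
      exact this
    exact he (h1 (base_span N hB e))

lemma cocircuit_iff (N : BinMat) (K : Set N.E) :
    N.toMatroid.IsCocircuit K ↔ Minimal (Supp N) K := by
  rw [Matroid.isCocircuit_iff_minimal]
  have : (fun X => ∀ B, N.toMatroid.IsBase B → (X ∩ B).Nonempty) = Supp N := by
    ext X
    exact supp_iff N X
  rw [this]

/-- A cocircuit is the support of a functional. -/
lemma cocircuit_functional (N : BinMat) {K : Set N.E} (hK : N.toMatroid.IsCocircuit K) :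
    ∃ ψ : (N.R → ZMod 2) →ₗ[ZMod 2] ZMod 2, K = {e | ψ (N.col e) = 1} := by
  rw [cocircuit_iff] at hK
  obtain ⟨⟨ψ, ⟨e, he⟩, hψ⟩, hmin⟩ := hK
  refine ⟨ψ, ?_⟩
  have h1 : Supp N {e | ψ (N.col e) = 1} :=
    ⟨ψ, ⟨e, he⟩, fun e' he' => by
      rcases zmod2_cases (ψ (N.col e')) with h | h
      · exact absurd h he'
      · exact h⟩
  have h2 : {e | ψ (N.col e) = 1} ⊆ K := by
    intro e' he'
    apply hψ
    simp only [Set.mem_ofPred_eq] at he'
    rw [he']
    exact one_ne_zero
  exact Set.Subset.antisymm (hmin h1 h2) h2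

/-! ### Stiff matroids -/

/-- `N` is stiff if it has no dismantling retraction. -/
def Stiff (N : BinMat) : Prop := ∀ r : N.E → N.E, ¬ IsDismantlingRetraction N r

/-- In a stiff matroid every homomorphism adjacent to the identity is injective. -/
lemma stiff_adj_id {N : BinMat} (hN : Stiff N) {ρ : N.E → N.E} (hρ : IsHom N N ρ)
    (hadj : AdjCol N N ρ id) : Function.Injective ρ := by
  obtain ⟨hne, K, c, hK, h1, h2⟩ := hadj
  obtain ⟨ψ, hψ⟩ := cocircuit_functional N hK
  have h1' : ∀ e ∈ K, N.col (ρ e) = N.col e + c := by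
    intro e he
    have := h1 e he
    rw [id] at this
    rw [this, add_assoc, add_self_vec, add_zero]
  have h2' : ∀ e ∉ K, ρ e = e := fun e he => (h2 e he).symm
  have hmem : ∀ e, e ∈ K ↔ ψ (N.col e) = 1 := by
    intro e
    rw [hψ]
    rfl
  rcases zmod2_cases (ψ c) with hc | hc
  · -- an involution
    have hinv : ∀ e, ρ (ρ e) = e := by
      intro e
      by_cases he : e ∈ K
      · have h3 : ρ e ∈ K := by
          rw [hmem, h1' e he, map_add, hc, add_zero]
          exact (hmem e).1 he
        apply N.col_inj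
        rw [h1' _ h3, h1' e he, add_assoc, add_self_vec, add_zero]
      · rw [h2' e he, h2' e he]
    exact Function.LeftInverse.injective hinv
  · exfalso
    apply hN ρ
    refine ⟨hρ, ?_, hne, K, c, hK, h1, h2⟩
    intro e
    by_cases he : e ∈ K
    · have h3 : ρ e ∉ K := by
        rw [hmem, h1' e he, map_add, hc, (hmem e).1 he]
        decide
      exact h2' _ h3
    · rw [h2' e he, h2' e he]

/-- If the column set is invariant under the translation by a nonzero vector, then there is a
dismantling retraction. -/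
lemma not_stiff_of_translation {N : BinMat} (hne : Nonempty N.E) {c : N.R → ZMod 2} (hc : c ≠ 0)
    (h : ∀ e, ∃ e', N.col e' = N.col e + c) : ¬ Stiff N := by
  classical
  choose t ht using h
  obtain ⟨e0⟩ := hne
  -- find a cocircuit containing exactly one of `e0`, `t e0`
  have hne' : t e0 ≠ e0 := by
    intro heq
    have := ht e0
    rw [heq] at this
    exact hc (by simpa using this)
  have hcol : N.col (t e0) ≠ N.col e0 := fun h => hne' (N.col_inj h)
  have hK : ∃ K, N.toMatroid.IsCocircuit K ∧ ∃ ψ : (N.R → ZMod 2) →ₗ[ZMod 2] ZMod 2,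
      K = {e | ψ (N.col e) = 1} ∧ ψ c = 1 := by
    have hc' : c = N.col e0 + N.col (t e0) := by
      rw [ht e0, ← add_assoc, add_self_vec, zero_add]
    have hcases : ∀ K, N.toMatroid.IsCocircuit K → ((e0 ∈ K ∧ t e0 ∉ K) ∨ (e0 ∉ K ∧ t e0 ∈ K)) →
        ∃ K, N.toMatroid.IsCocircuit K ∧ ∃ ψ : (N.R → ZMod 2) →ₗ[ZMod 2] ZMod 2,
          K = {e | ψ (N.col e) = 1} ∧ ψ c = 1 := by
      intro K hK hor
      obtain ⟨ψ, hψ⟩ := cocircuit_functional N hK
      refine ⟨K, hK, ψ, hψ, ?_⟩
      rw [hψ] at hor
      simp only [Set.mem_ofPred_eq] at hor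
      rw [hc', map_add]
      rcases hor with ⟨ha, hb⟩ | ⟨ha, hb⟩
      · rw [ha, (zmod2_cases _).resolve_right hb, add_zero]
      · rw [hb, (zmod2_cases _).resolve_right ha, zero_add]
    by_cases h0 : N.col e0 = 0
    · -- `t e0` is a nonloop, `e0` a loop
      have h1 : N.toMatroid.Indep {t e0} := by
        rw [N.indep_iff, linearIndepOn_singleton_iff]
        rw [h0] at hcol
        exact hcol
      obtain ⟨K, hK, hKI⟩ := h1.exists_isCocircuit_inter_eq_mem (Set.mem_singleton _)
      have hin : t e0 ∈ K := by
        have : t e0 ∈ K ∩ {t e0} := by rw [hKI]; exact Set.mem_singleton _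
        exact this.1
      refine hcases K hK (Or.inr ⟨?_, hin⟩)
      intro he0
      obtain ⟨ψ, hψ⟩ := cocircuit_functional N hK
      rw [hψ] at he0
      simp only [Set.mem_ofPred_eq, h0, map_zero] at he0
      exact zero_ne_one he0
    · by_cases h0' : N.col (t e0) = 0
      · have h1 : N.toMatroid.Indep {e0} := by
          rw [N.indep_iff, linearIndepOn_singleton_iff]
          exact h0
        obtain ⟨K, hK, hKI⟩ := h1.exists_isCocircuit_inter_eq_mem (Set.mem_singleton _)
        have hin : e0 ∈ K := by
          have : e0 ∈ K ∩ {e0} := by rw [hKI]; exact Set.mem_singleton _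
          exact this.1
        refine hcases K hK (Or.inl ⟨hin, ?_⟩)
        intro he0
        obtain ⟨ψ, hψ⟩ := cocircuit_functional N hK
        rw [hψ] at he0
        simp only [Set.mem_ofPred_eq, h0', map_zero] at he0
        exact zero_ne_one he0
      · have h1 : N.toMatroid.Indep {e0, t e0} := by
          rw [N.indep_iff, linearIndepOn_insert (by
            rw [Set.mem_singleton_iff]; exact hne'.symm), linearIndepOn_singleton_iff]
          refine ⟨h0', ?_⟩
          rw [Set.image_singleton, Submodule.mem_span_singleton]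
          rintro ⟨a, ha⟩
          rcases zmod2_cases a with h | h
          · rw [h, zero_smul] at ha
            exact h0 ha.symm
          · rw [h, one_smul] at ha
            exact hcol ha
        obtain ⟨K, hK, hKI⟩ := h1.exists_isCocircuit_inter_eq_mem (Set.mem_insert e0 {t e0})
        have hin : e0 ∈ K := by
          have : e0 ∈ K ∩ {e0, t e0} := by rw [hKI]; exact Set.mem_singleton _
          exact this.1
        refine hcases K hK (Or.inl ⟨hin, ?_⟩)
        intro hte
        have : t e0 ∈ K ∩ {e0, t e0} := ⟨hte, Set.mem_insert_of_mem _ (Set.mem_singleton _)⟩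
        rw [hKI] at this
        exact hne' this
  obtain ⟨K, hK, ψ, hψ, hψc⟩ := hK
  intro hN
  have hmem : ∀ e, e ∈ K ↔ ψ (N.col e) = 1 := by
    intro e
    rw [hψ]
    rfl
  have hin : ∀ e, e ∈ K → t e ∉ K := by
    intro e he
    rw [hmem, ht, map_add, hψc, (hmem e).1 he]
    decide
  apply hN (fun e => if e ∈ K then t e else e)
  refine ⟨?_, ?_, ?_, K, c, hK, ?_, ?_⟩
  · rw [isHom_iff]
    refine ⟨LinearMap.id + (LinearMap.toSpanSingleton (ZMod 2) _ c) ∘ₗ ψ, ?_⟩
    intro e
    by_cases he : e ∈ K
    · rw [if_pos he, ht]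
      simp [(hmem e).1 he]
    · have h0 : ψ (N.col e) = 0 := (zmod2_cases _).resolve_right (fun h => he ((hmem e).2 h))
      rw [if_neg he]
      simp [h0]
  · intro e
    by_cases he : e ∈ K
    · simp only [if_pos he, if_neg (hin e he)]
    · simp only [if_neg he]
  · intro heq
    obtain ⟨e, he⟩ := hK.nonempty
    have h3 := congrFun heq e
    rw [if_pos he, id] at h3
    exact hin e he (by rw [h3]; exact he)
  · intro e he
    simp only [if_pos he, id]
    rw [ht, add_assoc, add_self_vec, add_zero]
  · intro e he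
    simp only [if_neg he, id]

/-- A bijective endomorphism has an inverse endomorphism. -/
lemma exists_inverse {N : BinMat} {σ : N.E → N.E} (hσ : IsHom N N σ)
    (hinj : Function.Injective σ) : ∃ σ' : N.E → N.E, IsHom N N σ' ∧ ∀ e, σ' (σ e) = e := by
  classical
  have hbij : Function.Bijective σ := Finite.injective_iff_bijective.1 hinj
  let p : Equiv.Perm N.E := Equiv.ofBijective σ hbij
  have hfin : IsOfFinOrder p := isOfFinOrder_of_finite p
  obtain ⟨n, hn, hpn⟩ := (isOfFinOrder_iff_pow_eq_one).1 hfin
  have hiter : ∀ k : ℕ, IsHom N N (σ^[k]) := by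
    intro k
    induction k with
    | zero => exact IsHom.id N
    | succ k ih =>
      rw [Function.iterate_succ']
      exact IsHom.comp hσ ih
  refine ⟨σ^[n - 1], hiter _, fun e => ?_⟩
  have h1 : ∀ k : ℕ, ∀ e, (p ^ k) e = σ^[k] e := by
    intro k
    induction k with
    | zero => intro e; rfl
    | succ k ih =>
      intro e
      rw [pow_succ, Equiv.Perm.mul_apply, ih, Function.iterate_succ_apply]
      rfl
  have h2 : σ^[n - 1] (σ e) = σ^[n] e := by
    rw [← Function.iterate_succ_apply]
    congr
    omega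
  rw [h2, ← h1, hpn]
  rfl

/-- The product of `N` with itself: all pairs of columns. -/
@[reducible] def BinMat.prod (N : BinMat) : BinMat where
  E := N.E × N.E
  R := N.R ⊕ N.R
  col := fun p => Sum.elim (N.col p.1) (N.col p.2)
  col_inj := by
    rintro ⟨a, b⟩ ⟨a', b'⟩ h
    have h1 : N.col a = N.col a' := by
      ext i
      exact congrFun h (Sum.inl i)
    have h2 : N.col b = N.col b' := by
      ext i
      exact congrFun h (Sum.inr i)
    rw [N.col_inj h1, N.col_inj h2]

/-- The linear map given by composing with an inclusion of index sets. -/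
def pullback {R R' : Type} (f : R → R') : (R' → ZMod 2) →ₗ[ZMod 2] (R → ZMod 2) :=
  LinearMap.funLeft (ZMod 2) (ZMod 2) f

lemma fst_isHom (N : BinMat) : IsHom N.prod N (fun p : N.E × N.E => p.1) := by
  rw [isHom_iff]
  exact ⟨pullback Sum.inl, fun e => rfl⟩

lemma snd_isHom (N : BinMat) : IsHom N.prod N (fun p : N.E × N.E => p.2) := by
  rw [isHom_iff]
  exact ⟨pullback Sum.inr, fun e => rfl⟩

lemma diag_isHom (N : BinMat) : IsHom N N.prod (fun x : N.E => ((x, x) : N.E × N.E)) := by
  rw [isHom_iff]
  refine ⟨pullback (Sum.elim id id), fun e => ?_⟩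
  ext i
  rcases i with i | i <;> rfl

/-- The restriction of a functional on the product to the first coordinate. -/
def fstPart (N : BinMat) (χ : (N.prod.R → ZMod 2) →ₗ[ZMod 2] ZMod 2) :
    (N.R → ZMod 2) →ₗ[ZMod 2] ZMod 2 :=
  χ ∘ₗ { toFun := fun v => Sum.elim v 0
         map_add' := by
          intro x y
          funext i
          rcases i with i | i
          · rfl
          · exact (add_zero (0 : ZMod 2)).symm
         map_smul' := by
          intro m x
          funext i
          rcases i with i | i
          · rfl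
          · exact (mul_zero m).symm }

/-- The restriction of a functional on the product to the second coordinate. -/
def sndPart (N : BinMat) (χ : (N.prod.R → ZMod 2) →ₗ[ZMod 2] ZMod 2) :
    (N.R → ZMod 2) →ₗ[ZMod 2] ZMod 2 :=
  χ ∘ₗ { toFun := fun v => Sum.elim 0 v
         map_add' := by
          intro x y
          funext i
          rcases i with i | i
          · exact (add_zero (0 : ZMod 2)).symm
          · rfl
         map_smul' := by
          intro m x
          funext i
          rcases i with i | i
          · exact (mul_zero m).symm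
          · rfl }

lemma split_functional (N : BinMat) (χ : (N.prod.R → ZMod 2) →ₗ[ZMod 2] ZMod 2)
    (x y : N.E) : χ (N.prod.col (x, y)) = fstPart N χ (N.col x) + sndPart N χ (N.col y) := by
  unfold fstPart sndPart
  simp only [LinearMap.coe_comp, Function.comp_apply]
  rw [← map_add]
  congr 1
  funext i
  rcases i with i | i
  · change N.col x i = N.col x i + 0
    rw [add_zero]
  · change N.col y i = 0 + N.col y i
    rw [zero_add]

/-- The neighbours in `Col(N x N, N)` of `σ` composed with the first projection, `σ` an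
automorphism of a stiff matroid `N`, are again of this form. -/
lemma stiff_step {N : BinMat} (hne : Nonempty N.E) (hN : Stiff N) {σ : N.E → N.E}
    (hσ : IsHom N N σ) (hinj : Function.Injective σ) {τ' : N.E × N.E → N.E}
    (hτ' : IsHom N.prod N τ')
    (hadj : AdjCol N.prod N (fun p : N.E × N.E => σ p.1) τ') :
    ∃ σ' : N.E → N.E, IsHom N N σ' ∧ Function.Injective σ' ∧ ∀ p : N.E × N.E, τ' p = σ' p.1 := by
  classical
  obtain ⟨hneq, C, c, hC, h1, h2⟩ := hadj
  obtain ⟨χ, hχ⟩ := cocircuit_functional N.prod hC
  have hmem : ∀ x y : N.E, ((x, y) : N.E × N.E) ∈ C ↔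
      fstPart N χ (N.col x) + sndPart N χ (N.col y) = 1 := by
    intro x y
    rw [hχ, ← split_functional]
    rfl
  have hc : c ≠ 0 := by
    intro hc
    apply hneq
    ext p
    by_cases hp : p ∈ C
    · apply N.col_inj
      rw [h1 p hp, hc, add_zero]
    · exact (h2 p hp).symm
  have hsurj : Function.Surjective σ := (Finite.injective_iff_surjective).1 hinj
  -- the second part is constant
  have hconst : ∀ y y', sndPart N χ (N.col y) = sndPart N χ (N.col y') := by
    intro y y'
    by_contra hyy
    apply not_stiff_of_translation hne hc _ hN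
    intro e
    obtain ⟨x, rfl⟩ := hsurj e
    have : ∃ y, fstPart N χ (N.col x) + sndPart N χ (N.col y) = 1 := by
      rcases zmod2_cases (fstPart N χ (N.col x)) with ha | ha <;>
      rcases zmod2_cases (sndPart N χ (N.col y)) with hb | hb <;>
      rcases zmod2_cases (sndPart N χ (N.col y')) with hb' | hb'
      · exact absurd (hb.trans hb'.symm) hyy
      · exact ⟨y', by rw [ha, hb', zero_add]⟩
      · exact ⟨y, by rw [ha, hb, zero_add]⟩
      · exact absurd (hb.trans hb'.symm) hyy
      · exact absurd (hb.trans hb'.symm) hyy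
      · exact ⟨y, by rw [ha, hb, add_zero]⟩
      · exact ⟨y', by rw [ha, hb', add_zero]⟩
      · exact absurd (hb.trans hb'.symm) hyy
    obtain ⟨y, hy⟩ := this
    exact ⟨τ' (x, y), h1 (x, y) ((hmem x y).2 hy)⟩
  obtain ⟨e0⟩ := id hne
  let ψ : (N.R → ZMod 2) →ₗ[ZMod 2] ZMod 2 := fstPart N χ + sndPart N χ
  have hmem' : ∀ x y : N.E, ((x, y) : N.E × N.E) ∈ C ↔ ψ (N.col x) = 1 := by
    intro x y
    rw [hmem, hconst y x]
    rfl
  let C₁ : Set N.E := {x | ψ (N.col x) = 1}
  have hC₁ : N.toMatroid.IsCocircuit C₁ := by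
    rw [cocircuit_iff]
    constructor
    · obtain ⟨⟨x, y⟩, hp⟩ := hC.nonempty
      refine ⟨ψ, ⟨x, ?_⟩, ?_⟩
      · rw [(hmem' x y).1 hp]
        exact one_ne_zero
      · intro e he
        exact (zmod2_cases _).resolve_left he
    · intro C₂ hC₂ hsub
      obtain ⟨ψ₂, ⟨e, he⟩, hψ₂⟩ := hC₂
      have hmin := ((cocircuit_iff N.prod C).1 hC).2
      have hS : Supp N.prod {p : N.E × N.E | p.1 ∈ C₂} := by
        refine ⟨ψ₂ ∘ₗ pullback Sum.inl, ⟨(e, e), he⟩, ?_⟩
        intro p hp
        exact hψ₂ p.1 hp
      have hS2 : {p : N.E × N.E | p.1 ∈ C₂} ⊆ C := by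
        rintro ⟨x, y⟩ hp
        exact (hmem' x y).2 (hsub hp)
      intro x hx
      exact hmin hS hS2 ((hmem' x x).2 hx)
  -- the new map
  let σ' : N.E → N.E := fun x => τ' (x, x)
  have hσ' : IsHom N N σ' := IsHom.comp hτ' (diag_isHom N)
  have hτσ : ∀ p : N.E × N.E, τ' p = σ' p.1 := by
    rintro ⟨x, y⟩
    by_cases hx : ψ (N.col x) = 1
    · apply N.col_inj
      rw [h1 (x, y) ((hmem' x y).2 hx)]
      exact (h1 (x, x) ((hmem' x x).2 hx)).symm
    · have ha : ((x, y) : N.E × N.E) ∉ C := fun h => hx ((hmem' x y).1 h)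
      have hb : ((x, x) : N.E × N.E) ∉ C := fun h => hx ((hmem' x x).1 h)
      rw [h2 (x, y) ha]
      exact (h2 (x, x) hb).symm
  refine ⟨σ', hσ', ?_, hτσ⟩
  obtain ⟨ρ, hρ, hρσ⟩ := exists_inverse hσ hinj
  obtain ⟨L, hL⟩ := isHom_iff.1 hρ
  have hcomp : Function.Injective (ρ ∘ σ') := by
    apply stiff_adj_id hN (IsHom.comp hρ hσ')
    apply AdjCol.symm
    refine ⟨?_, C₁, L c, hC₁, ?_, ?_⟩
    · intro heq
      apply hneq
      have hρinj : Function.Injective ρ := by
        have : Function.Surjective ρ := fun e => ⟨σ e, hρσ e⟩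
        exact (Finite.injective_iff_surjective).2 this
      ext p
      rw [hτσ p]
      apply hρinj
      rw [hρσ]
      exact congrFun heq p.1
    · intro x hx
      have h3 : N.col (σ' x) = N.col (σ x) + c := h1 (x, x) ((hmem' x x).2 hx)
      simp only [Function.comp_apply, id]
      rw [← hL, h3, map_add, hL, hρσ]
    · intro x hx
      have hb : ((x, x) : N.E × N.E) ∉ C := fun h => hx ((hmem' x x).1 h)
      have h3 : σ' x = σ x := h2 (x, x) hb
      simp only [Function.comp_apply, id]
      rw [h3, hρσ]
  exact Function.Injective.of_comp hcomp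

/-- A stiff matroid `N` with `Col(N x N, N)` connected has at most one element. -/
lemma stiff_subsingleton {N : BinMat} (hne : Nonempty N.E) (hN : Stiff N)
    (hconn : (Col N.prod N).Preconnected) : Subsingleton N.E := by
  classical
  have hreach := hconn ⟨_, fst_isHom N⟩ ⟨_, snd_isHom N⟩
  obtain ⟨w⟩ := hreach
  have key : ∀ (u v : {τ : N.prod.E → N.E // IsHom N.prod N τ}) (_ : (Col N.prod N).Walk u v),
      (∃ σ : N.E → N.E, IsHom N N σ ∧ Function.Injective σ ∧ ∀ p : N.E × N.E, u.1 p = σ p.1) →
      ∃ σ : N.E → N.E, IsHom N N σ ∧ Function.Injective σ ∧ ∀ p : N.E × N.E, v.1 p = σ p.1 := by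
    intro u v w
    induction w with
    | nil => exact fun h => h
    | cons h w ih =>
      rintro ⟨σ, hσ, hinj, hu⟩
      apply ih
      refine stiff_step hne hN hσ hinj (Subtype.prop _) ?_
      have h' : AdjCol N.prod N _ _ := h
      rw [funext hu] at h'
      exact h'
  obtain ⟨σ, -, -, hσ⟩ := key _ _ w ⟨id, IsHom.id N, fun _ _ h => h, fun _ => rfl⟩
  obtain ⟨e0⟩ := hne
  refine ⟨fun a b => ?_⟩
  have ha := hσ (e0, a)
  have hb := hσ (e0, b)
  simp only at ha hb
  rw [ha, hb]

/-! ### Dismantling preserves triviality -/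

lemma incl_isHom (N : BinMat) (X : Set N.E) :
    IsHom (N.restrict X) N (fun e : X => e.1) := by
  rw [isHom_iff]
  exact ⟨LinearMap.id, fun e => rfl⟩

lemma restrict_isHom {N M : BinMat} {X : Set N.E} {τ : M.E → X}
    (h : IsHom M N (fun e => (τ e).1)) : IsHom M (N.restrict X) τ := by
  rw [isHom_iff] at h ⊢
  obtain ⟨L, hL⟩ := h
  exact ⟨L, hL⟩

lemma retraction_preserves {N : BinMat} {r : N.E → N.E} (hr : IsDismantlingRetraction N r)
    {M : BinMat} (hconn : (Col M N).Preconnected) :
    (Col M (N.restrict (Set.range r))).Preconnected := by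
  classical
  obtain ⟨hhom, hidem, -⟩ := hr
  obtain ⟨L, hL⟩ := isHom_iff.1 hhom
  have hfix : ∀ x : Set.range r, r x.1 = x.1 := by
    rintro ⟨_, ⟨y, rfl⟩⟩
    exact hidem y
  -- the retraction applied to homomorphisms
  let F : {τ : M.E → N.E // IsHom M N τ} →
      {τ : M.E → Set.range r // IsHom M (N.restrict (Set.range r)) τ} := fun τ =>
    ⟨fun e => ⟨r (τ.1 e), τ.1 e, rfl⟩, restrict_isHom (IsHom.comp hhom τ.2)⟩
  have hF : ∀ u v, (Col M N).Adj u v →
      (Col M (N.restrict (Set.range r))).Reachable (F u) (F v) := by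
    intro u v huv
    obtain ⟨-, C, c, hC, h1, h2⟩ := (huv : AdjCol M N u.1 v.1)
    by_cases heq : F u = F v
    · rw [heq]
    · apply SimpleGraph.Adj.reachable
      refine ⟨fun h => heq (Subtype.ext h), C, L c, hC, ?_, ?_⟩
      · intro e he
        change N.col (r (v.1 e)) = N.col (r (u.1 e)) + L c
        rw [← hL, h1 e he, map_add, hL]
      · intro e he
        apply Subtype.ext
        change r (v.1 e) = r (u.1 e)
        rw [h2 e he]
  have hF' : ∀ u v, (Col M N).Walk u v →
      (Col M (N.restrict (Set.range r))).Reachable (F u) (F v) := by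
    intro u v w
    induction w with
    | nil => exact SimpleGraph.Reachable.refl _
    | cons h w ih => exact (hF _ _ h).trans ih
  intro τ τ'
  let ι : {τ : M.E → Set.range r // IsHom M (N.restrict (Set.range r)) τ} →
      {τ : M.E → N.E // IsHom M N τ} := fun τ =>
    ⟨fun e => (τ.1 e).1, IsHom.comp (incl_isHom N (Set.range r)) τ.2⟩
  have hFι : ∀ τ, F (ι τ) = τ := by
    intro τ
    apply Subtype.ext
    funext e
    exact Subtype.ext (hfix (τ.1 e))
  obtain ⟨w⟩ := hconn (ι τ) (ι τ')
  have h5 := hF' _ _ w
  have h6 : (Col M (N.restrict (Set.range r))).Reachable τ τ' := by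
    have e1 := hFι τ
    have e2 := hFι τ'
    rw [e1, e2] at h5
    exact h5
  exact h6

/-- A one-element matroid is a copy of the loop or of the edge. -/
lemma one_element {N : BinMat} (hne : Nonempty N.E) (hsub : Subsingleton N.E) :
    IsCopy N loop ∨ IsCopy N edge := by
  classical
  obtain ⟨e0⟩ := hne
  let f : N.E ≃ Unit :=
    { toFun := fun _ => ()
      invFun := fun _ => e0
      left_inv := fun e => hsub.elim _ _
      right_inv := fun _ => rfl }
  have hsets : ∀ I : Set N.E, I = ∅ ∨ I = {e0} := by
    intro I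
    by_cases h : e0 ∈ I
    · right
      ext x
      rw [hsub.elim x e0]
      simp [h]
    · left
      ext x
      rw [hsub.elim x e0]
      simp [h]
  have himg : f '' {e0} = {()} := by
    rw [Set.image_singleton]
  by_cases h0 : N.col e0 = 0
  · left
    refine ⟨f, fun I => ?_⟩
    rcases hsets I with rfl | rfl
    · simp only [Set.image_empty]
      exact iff_of_true N.toMatroid.empty_indep loop.toMatroid.empty_indep
    · have h1 : ¬ N.toMatroid.Indep {e0} := by
        rw [N.indep_iff, linearIndepOn_singleton_iff]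
        exact fun h => h h0
      have h2 : ¬ loop.toMatroid.Indep (f '' {e0}) := by
        rw [himg, loop.indep_iff]
        intro h
        exact (linearIndepOn_singleton_iff (R := ZMod 2)).1 h rfl
      exact iff_of_false h1 h2
  · right
    refine ⟨f, fun I => ?_⟩
    rcases hsets I with rfl | rfl
    · simp only [Set.image_empty]
      exact iff_of_true N.toMatroid.empty_indep edge.toMatroid.empty_indep
    · have h1 : N.toMatroid.Indep {e0} := by
        rw [N.indep_iff, linearIndepOn_singleton_iff]
        exact h0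
      have h2 : edge.toMatroid.Indep (f '' {e0}) := by
        rw [himg, edge.indep_iff]
        refine (linearIndepOn_singleton_iff (R := ZMod 2)).2 ?_
        intro h
        exact one_ne_zero (congrFun h ())
      exact iff_of_true h1 h2

/-- **The dismantlability conjecture for binary matroids.** If `Col(M,N)` is connected for every
binary matroid `M`, then `N` dismantles to the loop or to the edge. -/
theorem result (N : BinMat) (hne : Nonempty N.E)
    (htriv : ∀ M : BinMat, (Col M N).Preconnected) :
    DismantlesTo loop N ∨ DismantlesTo edge N := by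
  classical
  induction hn : Nat.card N.E using Nat.strong_induction_on generalizing N with
  | _ n ih =>
  by_cases hstiff : Stiff N
  · have hsub := stiff_subsingleton hne hstiff (htriv N.prod)
    rcases one_element hne hsub with h | h
    · exact Or.inl (DismantlesTo.copy N h)
    · exact Or.inr (DismantlesTo.copy N h)
  · unfold Stiff at hstiff
    push Not at hstiff
    obtain ⟨r, hr⟩ := hstiff
    have hlt : Nat.card (N.restrict (Set.range r)).E < n := by
      rw [← hn]
      change Nat.card (Set.range r) < Nat.card N.E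
      have hnsurj : ¬ Function.Surjective r := by
        intro hs
        apply hr.2.2.1
        ext e
        obtain ⟨e', rfl⟩ := hs e
        exact hr.2.1 e'
      have hss : Set.range r ⊂ Set.univ := by
        rw [Set.ssubset_univ_iff]
        intro h
        exact hnsurj (Set.range_eq_univ.1 h)
      have := Set.ncard_lt_ncard hss (Set.toFinite _)
      rwa [Set.ncard_univ] at this
    have hne' : Nonempty (N.restrict (Set.range r)).E := by
      obtain ⟨e0⟩ := hne
      exact ⟨⟨r e0, e0, rfl⟩⟩
    rcases ih _ hlt (N.restrict (Set.range r)) hne'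
      (fun M => retraction_preserves hr (htriv M)) rfl with h | h
    · exact Or.inl (DismantlesTo.step N r hr h)
    · exact Or.inr (DismantlesTo.step N r hr h)

end Pool.Agent.Results.MP_ea4033_co.TrivialImpliesDismantles
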